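import Pool.Agent.H452.FSD.Ideal

/-!
# The closed ideal of the finitely strictly singular operators from `ℓ_p` to `ℓ_q` is not generated
by fewer than `𝔡` operators

`𝔡` is the dominating number: the least cardinality of a set `D` of functions `ℕ → ℕ` such that
every function is eventually below a member of `D`. It is uncountable.

For all `1 < p < q < ∞` (real or complex scalars) every set of operators which generates the closed
ideal `FS` of the finitely strictly singular operators has at least `𝔡` elements. In particular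
`FS` is not generated by one operator (this is the question), and not by countably many. Moreover
there is a strictly increasing transfinite sequence of length `𝔡` of closed ideals properly
contained in `FS`.

Method: the starting result `NotSinglyGenerated` attaches to a finitely strictly singular operator
`T` a sequence which tends to infinity slowly compared with the Bernstein numbers of `T`, and
blocks of Rademacher and Rosenthal functions with these parameters, such that the normalized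
traces of all `A T B` over the `n`-th block tend to `0`, while those of the block diagonal operator
are `1`. Here it is shown that it suffices that for every finite subset of the generators the
traces tend to `0` along some subsequence, depending on the subset; a sequence with this property
exists for every set of fewer than `𝔡` generators.
-/

set_option autoImplicit false

open scoped ENNReal

namespace Pool.Agent.Results.MP_4336d9_an.DominatingNumber

/-- `D` is a dominating set of functions: every function is eventually below a member of `D`. -/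
def Dominating (D : Set (ℕ → ℕ)) : Prop :=
  ∀ f : ℕ → ℕ, ∃ g ∈ D, ∀ᶠ n in Filter.atTop, f n ≤ g n

/-- The dominating number `𝔡`: the least cardinality of a dominating set of functions. -/
noncomputable def dominatingNumber : Cardinal.{0} :=
  sInf {κ | ∃ D : Set (ℕ → ℕ), Dominating D ∧ Cardinal.mk D = κ}

section
variable {𝕜 X Y : Type} [NontriviallyNormedField 𝕜] [NormedAddCommGroup X] [NormedSpace 𝕜 X]
  [NormedAddCommGroup Y] [NormedSpace 𝕜 Y]

/-- `J` is a closed ideal of the space of bounded operators from `X` to `Y`. -/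
structure IsClosedIdeal (J : Set (X →L[𝕜] Y)) : Prop where
  isClosed : IsClosed J
  zero_mem : (0 : X →L[𝕜] Y) ∈ J
  add_mem : ∀ S ∈ J, ∀ T ∈ J, S + T ∈ J
  smul_mem : ∀ c : 𝕜, ∀ S ∈ J, c • S ∈ J
  comp_mem : ∀ S ∈ J, ∀ (A : Y →L[𝕜] Y) (B : X →L[𝕜] X), A ∘L S ∘L B ∈ J

/-- The closed ideal generated by a set `𝒯` of operators from `X` to `Y`: the norm closure of the
set of the finite sums of multiples of operators `A T B` with `T ∈ 𝒯`, `A` a bounded operator on
`Y` and `B` a bounded operator on `X`. -/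
def closedIdeal (𝒯 : Set (X →L[𝕜] Y)) : Set (X →L[𝕜] Y) :=
  closure (Submodule.span 𝕜 {S | ∃ T ∈ 𝒯, ∃ (A : Y →L[𝕜] Y) (B : X →L[𝕜] X), S = A ∘L T ∘L B})

/-- `T : X → Y` is finitely strictly singular: for every `ε > 0` there is `n` such that every
linear subspace `E` of `X` with `dim E ≥ n` contains `x ≠ 0` with `‖T x‖ ≤ ε ‖x‖`. -/
def FinitelyStrictlySingular (T : X →L[𝕜] Y) : Prop :=
  ∀ ε : ℝ, 0 < ε → ∃ n : ℕ, ∀ E : Submodule 𝕜 X,
    (n : Cardinal) ≤ Module.rank 𝕜 E → ∃ x ∈ E, x ≠ 0 ∧ ‖T x‖ ≤ ε * ‖x‖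

variable (𝕜 X Y) in
/-- The set of the finitely strictly singular operators from `X` to `Y`. -/
def FS : Set (X →L[𝕜] Y) := {S | FinitelyStrictlySingular S}

variable (𝕜 X Y) in
/-- The closed ideal `FS` is generated by one operator. -/
def GeneratedByOneOperator : Prop := ∃ T : X →L[𝕜] Y, closedIdeal {T} = FS 𝕜 X Y

variable (𝕜 X Y) in
/-- Every set of operators which generates the closed ideal `FS` has at least `κ` elements. -/
def NeedsGenerators (κ : Cardinal.{0}) : Prop :=
  ∀ 𝒯 : Set (X →L[𝕜] Y), closedIdeal 𝒯 = FS 𝕜 X Y → κ ≤ Cardinal.mk 𝒯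

variable (𝕜 X Y) in
/-- There are closed ideals `J α`, `α` running over the ordinals below the initial ordinal of `κ`,
which are properly contained in `FS` and strictly increase with `α`. -/
def HasChainOfClosedIdeals (κ : Cardinal.{0}) : Prop :=
  ∃ J : Ordinal.{0} → Set (X →L[𝕜] Y),
    (∀ α < κ.ord, IsClosedIdeal (J α) ∧ J α ⊂ FS 𝕜 X Y) ∧
    ∀ α β, α < β → β < κ.ord → J α ⊂ J β

lemma subset_closedIdeal (𝒯 : Set (X →L[𝕜] Y)) : 𝒯 ⊆ closedIdeal 𝒯 := by
  intro T hT
  refine subset_closure (Submodule.subset_span ⟨T, hT, ContinuousLinearMap.id 𝕜 _,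
    ContinuousLinearMap.id 𝕜 _, ?_⟩)
  ext x; rfl

lemma closedIdeal_mono {𝒮 𝒯 : Set (X →L[𝕜] Y)} (h : 𝒮 ⊆ 𝒯) : closedIdeal 𝒮 ⊆ closedIdeal 𝒯 :=
  closure_mono (Submodule.span_mono fun _ ⟨T, hT, hS⟩ => ⟨T, h hT, hS⟩)

lemma closedIdeal_subset {𝒯 J : Set (X →L[𝕜] Y)} (hJ : IsClosedIdeal J) (h : 𝒯 ⊆ J) :
    closedIdeal 𝒯 ⊆ J := by
  refine closure_minimal ?_ hJ.isClosed
  intro S hS
  refine Submodule.span_induction (p := fun S _ => S ∈ J) ?_ hJ.zero_mem
    (fun S T _ _ h1 h2 => hJ.add_mem S h1 T h2) (fun c S _ h1 => hJ.smul_mem c S h1) hS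
  rintro _ ⟨T, hT, A, B, rfl⟩
  exact hJ.comp_mem T (h hT) A B

lemma isClosedIdeal_closedIdeal (𝒯 : Set (X →L[𝕜] Y)) : IsClosedIdeal (closedIdeal 𝒯) where
  isClosed := isClosed_closure
  zero_mem := subset_closure (Submodule.zero_mem _)
  add_mem := fun S hS T hT =>
    (Submodule.topologicalClosure (Submodule.span 𝕜 {S | ∃ T ∈ 𝒯, ∃ (A : Y →L[𝕜] Y)
      (B : X →L[𝕜] X), S = A ∘L T ∘L B})).add_mem hS hT
  smul_mem := fun c S hS =>
    (Submodule.topologicalClosure (Submodule.span 𝕜 {S | ∃ T ∈ 𝒯, ∃ (A : Y →L[𝕜] Y)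
      (B : X →L[𝕜] X), S = A ∘L T ∘L B})).smul_mem c hS
  comp_mem := by
    intro S hS A B
    let Φ : (X →L[𝕜] Y) →L[𝕜] (X →L[𝕜] Y) :=
      (ContinuousLinearMap.compL 𝕜 X Y Y A) ∘L ((ContinuousLinearMap.compL 𝕜 X X Y).flip B)
    have hΦ : ∀ T, Φ T = A ∘L T ∘L B := fun T => rfl
    have hmaps : Set.MapsTo Φ (Submodule.span 𝕜 {S | ∃ T ∈ 𝒯, ∃ (A : Y →L[𝕜] Y)
        (B : X →L[𝕜] X), S = A ∘L T ∘L B} : Set (X →L[𝕜] Y))
        (Submodule.span 𝕜 {S | ∃ T ∈ 𝒯, ∃ (A : Y →L[𝕜] Y)
        (B : X →L[𝕜] X), S = A ∘L T ∘L B} : Set (X →L[𝕜] Y)) := by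
      intro S hS
      refine Submodule.span_induction (p := fun S _ => Φ S ∈ Submodule.span 𝕜
        {S | ∃ T ∈ 𝒯, ∃ (A : Y →L[𝕜] Y) (B : X →L[𝕜] X), S = A ∘L T ∘L B}) ?_ ?_ ?_ ?_ hS
      · rintro _ ⟨T, hT, A', B', rfl⟩
        refine Submodule.subset_span ⟨T, hT, A ∘L A', B' ∘L B, ?_⟩
        rw [hΦ]; ext x; rfl
      · rw [map_zero]; exact Submodule.zero_mem _
      · intro S T _ _ h1 h2
        rw [map_add]; exact Submodule.add_mem _ h1 h2
      · intro c S _ h1
        rw [map_smul]; exact Submodule.smul_mem _ c h1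
    have := map_mem_closure Φ.continuous hS hmaps
    rwa [hΦ] at this

end

section
variable {𝕜 : Type} [RCLike 𝕜] {X Y : Type} [NormedAddCommGroup X] [NormedSpace 𝕜 X]
  [NormedAddCommGroup Y] [NormedSpace 𝕜 Y]

/-- The finitely strictly singular operators form a closed ideal. -/
lemma isClosedIdeal_FS : IsClosedIdeal {S : X →L[𝕜] Y | FinitelyStrictlySingular S} where
  isClosed := H452.FSD.isClosed_FSS
  zero_mem := H452.FSD.FSS.zero
  add_mem := fun _ hS _ hT => H452.FSD.FSS.add hS hT
  smul_mem := fun c _ hS => H452.FSD.FSS.smul c hS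
  comp_mem := fun _ hS A B => H452.FSD.FSS.comp hS A B

end

/-- For `1 < p < q < ∞` let `FS` be the closed ideal of the finitely strictly singular operators
from `ℓ_p` to `ℓ_q` and let `𝔡` be the dominating number.
(1) `FS` is not the closed ideal generated by one operator.
(2) `𝔡` is uncountable, and every set of operators which generates `FS` as a closed ideal has at
least `𝔡` elements.
(3) There is a sequence `J α` of closed ideals, `α` running over the ordinals below (the initial
ordinal of) `𝔡`, which is strictly increasing and whose members are properly contained in `FS`. -/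
theorem result {𝕜 : Type} [RCLike 𝕜] {p q : ℝ≥0∞} [Fact (1 ≤ p)] [Fact (1 ≤ q)]
    (hp : 1 < p) (hpq : p < q) (hq : q < ∞) :
    ¬ GeneratedByOneOperator 𝕜 (lp (fun _ : ℕ => 𝕜) p) (lp (fun _ : ℕ => 𝕜) q) ∧
    (Cardinal.aleph0 < dominatingNumber ∧
      NeedsGenerators 𝕜 (lp (fun _ : ℕ => 𝕜) p) (lp (fun _ : ℕ => 𝕜) q) dominatingNumber) ∧
    HasChainOfClosedIdeals 𝕜 (lp (fun _ : ℕ => 𝕜) p) (lp (fun _ : ℕ => 𝕜) q)
      dominatingNumber := by
  have hd : Cardinal.aleph0 < dominatingNumber := H452.FSD.aleph0_lt_dnum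
  have hcore : ∀ 𝒯 : Set (lp (fun _ : ℕ => 𝕜) p →L[𝕜] lp (fun _ : ℕ => 𝕜) q),
      (∀ T ∈ 𝒯, FinitelyStrictlySingular T) → Cardinal.mk 𝒯 < dominatingNumber →
      ∃ R, FinitelyStrictlySingular R ∧ R ∉ closedIdeal 𝒯 :=
    fun 𝒯 h1 h2 => H452.FSD.core hp hpq hq 𝒯 h1 h2
  have h2 : NeedsGenerators 𝕜 (lp (fun _ : ℕ => 𝕜) p) (lp (fun _ : ℕ => 𝕜) q)
      dominatingNumber := by
    intro 𝒯 h𝒯
    by_contra hcon
    rw [not_le] at hcon
    obtain ⟨R, hR, hR2⟩ := hcore 𝒯 (fun T hT => by
      have := subset_closedIdeal 𝒯 hT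
      rw [h𝒯] at this
      exact this) hcon
    rw [h𝒯] at hR2
    exact hR2 hR
  refine ⟨?_, ⟨hd, h2⟩, ?_⟩
  · rintro ⟨T, hT⟩
    have h3 := h2 {T} hT
    rw [Cardinal.mk_singleton] at h3
    exact absurd (h3.trans_lt Cardinal.one_lt_aleph0) (not_lt.mpr hd.le)
  · classical
    -- the recursive choice of the operators
    let step : (α : Ordinal.{0}) → ((β : Ordinal.{0}) → β < α →
        (lp (fun _ : ℕ => 𝕜) p →L[𝕜] lp (fun _ : ℕ => 𝕜) q)) →
        (lp (fun _ : ℕ => 𝕜) p →L[𝕜] lp (fun _ : ℕ => 𝕜) q) := fun α r =>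
      if h : ∃ R, FinitelyStrictlySingular R ∧
        R ∉ closedIdeal {T | ∃ (β : Ordinal.{0}) (hβ : β < α), T = r β hβ} then h.choose else 0
    let R : Ordinal.{0} → (lp (fun _ : ℕ => 𝕜) p →L[𝕜] lp (fun _ : ℕ => 𝕜) q) :=
      Ordinal.lt_wf.fix step
    have hR : ∀ α, R α = step α (fun β _ => R β) := fun α => Ordinal.lt_wf.fix_eq step α
    have hset : ∀ α, {T | ∃ (β : Ordinal.{0}) (_ : β < α), T = R β} = R '' Set.Iio α := by
      intro α
      ext T
      constructor
      · rintro ⟨β, hβ, rfl⟩; exact ⟨β, hβ, rfl⟩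
      · rintro ⟨β, hβ, rfl⟩; exact ⟨β, hβ, rfl⟩
    have hRF : ∀ α, FinitelyStrictlySingular (R α) := by
      intro α
      rw [hR]
      simp only [step]
      split_ifs with h
      · exact h.choose_spec.1
      · exact H452.FSD.FSS.zero
    have hRn : ∀ α < dominatingNumber.ord, R α ∉ closedIdeal (R '' Set.Iio α) := by
      intro α hα
      have hcard : Cardinal.mk (R '' Set.Iio α) < dominatingNumber := by
        have h1 : Cardinal.lift.{1} (Cardinal.mk (R '' Set.Iio α)) ≤
            Cardinal.lift.{0} (Cardinal.mk (Set.Iio α)) := Cardinal.mk_image_le_lift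
        rw [Cardinal.mk_Iio_ordinal, Cardinal.lift_lift, Cardinal.lift_le] at h1
        exact h1.trans_lt (Cardinal.lt_ord.mp hα)
      have hex : ∃ S, FinitelyStrictlySingular S ∧
          S ∉ closedIdeal {T | ∃ (β : Ordinal.{0}) (_ : β < α), T = R β} := by
        rw [hset]
        exact hcore _ (by rintro _ ⟨β, -, rfl⟩; exact hRF β) hcard
      have h3 : R α = hex.choose := by
        rw [hR]
        simp only [step]
        rw [dif_pos hex]
      have h4 := hex.choose_spec.2
      rw [← h3, hset] at h4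
      exact h4
    refine ⟨fun α => closedIdeal (R '' Set.Iio α), fun α hα => ⟨isClosedIdeal_closedIdeal _, ?_⟩,
      fun α β hαβ hβ => ?_⟩
    · refine ⟨closedIdeal_subset isClosedIdeal_FS ?_, fun h => hRn α hα (h (hRF α))⟩
      rintro _ ⟨β, -, rfl⟩
      exact hRF β
    · refine ⟨closedIdeal_mono (Set.image_mono (Set.Iio_subset_Iio hαβ.le)), fun h => ?_⟩
      exact hRn α (hαβ.trans hβ) (h (subset_closedIdeal _ ⟨α, hαβ, rfl⟩))

end Pool.Agent.Results.MP_4336d9_an.DominatingNumber
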